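import Pool.Agent.helper52.ED.Spec

set_option autoImplicit false

open Complex Metric Set Filter Topology MeasureTheory
open Pool.Agent.helper98.ILF Pool.Agent.helper16.Multibrot HY

noncomputable section

namespace ED

theorem VT (hRGR : RGR_stmt) (hVCL : VCL_stmt) (hGEO : GEO_stmt) (hSPK : SPK_stmt) : VT_stmt := by
  intro n hn r hr
  obtain ⟨η₀, hη₀, hR⟩ := hRGR n hn r hr
  set η : ℝ := min η₀ 1 with hηdef
  have hη : 0 < η := lt_min hη₀ one_pos
  have hη1 : η ≤ 1 := min_le_right _ _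
  have hηη : η ≤ η₀ := min_le_left _ _
  obtain ⟨C₀, hV⟩ := hVCL η hη
  refine ⟨4 * C₀ / η + 1, by positivity, ?_⟩
  intro c hc hdis V φ hφ ι G w s hw hw1 hs hs1 hG hB
  by_contra hcon
  push Not at hcon
  have hlog : Real.log (1 / w) ≤ 1 / w := by
    have := Real.log_le_sub_one_of_pos (show (0 : ℝ) < 1 / w by positivity)
    linarith
  have hlog0 : 0 ≤ Real.log (1 / w) := Real.log_nonneg (by rw [le_div_iff₀ hw]; linarith)
  set L : ℕ := ⌈1 + 2 * Real.log (1 / w) / η⌉₊ with hL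
  have hL1 : 1 + 2 * Real.log (1 / w) / η ≤ L := Nat.le_ceil _
  have hL2 : (L : ℝ) ≤ 4 / η / w := by
    have h1 : (L : ℝ) < 1 + 2 * Real.log (1 / w) / η + 1 := Nat.ceil_lt_add_one (by positivity)
    have h2 : 2 * Real.log (1 / w) / η ≤ 2 / η / w := by
      calc 2 * Real.log (1 / w) / η ≤ 2 * (1 / w) / η := by
            apply div_le_div_of_nonneg_right _ hη.le
            linarith
        _ = 2 / η / w := by field_simp
    have h3 : (2 : ℝ) ≤ 2 / η / w := by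
      rw [div_div, le_div_iff₀ (by positivity)]
      nlinarith
    have h4 : 4 / η / w = 2 / η / w + 2 / η / w := by ring
    linarith
  have hcard : (C₀ : ℝ) / (w * s) ^ 2 * L < ι.card := by
    refine lt_of_le_of_lt ?_ hcon
    have h1 : (C₀ : ℝ) / (w * s) ^ 2 * L ≤ (C₀ : ℝ) / (w * s) ^ 2 * (4 / η / w) :=
      mul_le_mul_of_nonneg_left hL2 (by positivity)
    have h2 : (C₀ : ℝ) / (w * s) ^ 2 * (4 / η / w) = (4 * C₀ / η) * s / (w * s) ^ 3 := by
      field_simp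
    have h3 : (4 * C₀ / η) * s / (w * s) ^ 3 ≤ (4 * C₀ / η + 1) / (w * s) ^ 3 := by
      apply div_le_div_of_nonneg_right _ (by positivity)
      have : 0 ≤ 4 * (C₀ : ℝ) / η := by positivity
      nlinarith
    linarith
  obtain ⟨ι', hι', hcard', hdist⟩ := hV w s ι (fun i => G i 0) L hw hw1 hs hs1
    (fun i hi => ⟨(hG i hi).1.map (by show (0 : ℂ) ∈ ball (0 : ℂ) 1; simp), (hG i hi).2.2⟩) hcard
  have hgeo := hGEO η w 1 ι' (fun i => hd (G i) 0) hη hη1 hw hw1 (fun i hi => by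
    refine ⟨(hG i (hι' hi)).2.1, ?_⟩
    have h := hSPK.2.2.2.2.2 (G i) (hG i (hι' hi)).1.dif (hG i (hι' hi)).1.map 0
      (by show (0 : ℂ) ∈ ball (0 : ℂ) 1; simp)
    simpa using h) (fun i hi k hk hik => by
    obtain ⟨B, hB1, hB2, hB3, hB4⟩ := hB i (hι' hi) k (hι' hk) hik
    have hpos : 0 ≤ hd (G i) 0 := hw.le.trans (hG i (hι' hi)).2.1
    have h := hR c hc hdis V φ hφ (G i) (G k) B (k - i) (by omega) (hG i (hι' hi)).1 (hG k (hι' hk)).1
      hB1 hB2 hB3 hB4 (by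
        calc ‖T (G i 0) (G k 0)‖ ≤ η * w := hdist i hi k hk
          _ ≤ η₀ * hd (G i) 0 := mul_le_mul hηη (hG i (hι' hi)).2.1 hw.le hη₀.le)
    show (1 + η) * hd (G i) 0 ≤ hd (G k) 0
    nlinarith)
  have h5 : (L : ℝ) < ι'.card := by exact_mod_cast hcard'
  linarith

end ED
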